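import Pool.Agent.Lib.MP_7ed9c3_nt.AllN

/-!
# Boundary values of the Euler products of elliptic curves over number fields

The Euler product of an elliptic curve over a number field converges absolutely for `Re s > 3/2`.
For `θ > 0` there is one exceptional set `Z` of real numbers, of Hausdorff dimension at most `2 θ`,
such that for all `t ∉ Z`, all number fields `K ⊂ ℂ` and all elliptic curves over `K` the product,
ordered by norm, converges at `3/2 + i t` to a nonzero number, with error `O((log x)^(-θ))`, and this
number is the limit of the absolutely convergent product in every Stolz angle at `3/2 + i t`.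
-/

namespace Pool.Agent.Results.MP_7ed9c3_nt.BoundaryValues

open NumberField IsDedekindDomain MP7ed9c3

theorem result :
    (∀ θ : ℝ, 0 < θ → ∃ Z : Set ℝ, dimH Z ≤ ENNReal.ofReal (2 * θ) ∧ ∀ t ∉ Z,
      ∀ (K : Subfield ℂ) [NumberField K] (E : WeierstrassCurve K), E.IsElliptic →
        ∀ M : HeightOneSpectrum (𝓞 K) → WeierstrassCurve (𝓞 K), (∀ v, IsMinAt E v (M v)) →
          Conv M θ t) ∧
    ∃ Z : Set ℝ, dimH Z = 0 ∧ ∀ t ∉ Z, ∃ θ : ℝ, 0 < θ ∧
      ∀ (K : Subfield ℂ) [NumberField K] (E : WeierstrassCurve K), E.IsElliptic →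
        ∀ M : HeightOneSpectrum (𝓞 K) → WeierstrassCurve (𝓞 K), (∀ v, IsMinAt E v (M v)) →
          Conv M θ t :=
  universalAll

end Pool.Agent.Results.MP_7ed9c3_nt.BoundaryValues
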