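import Pool.Agent.Lib.MP_7ed9c3_nt.AllB

/-!
# A criterion for the analytic continuation of the L-series of an elliptic curve

The boundary values of the Euler product on the line `Re s = 3/2` decide the continuation: it extends
to an entire function if and only if there is an entire function `G` such that the Euler product,
ordered by norm, converges to `G (3/2 + i t)` for the `t` in some set of positive measure. The local
form: if the product converges to the values of a function `G`, analytic near a segment of the line,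
on a set of positive measure, then `G` continues it across the whole segment.
-/

namespace Pool.Agent.Results.MP_7ed9c3_nt.ContinuationCriterion

open NumberField IsDedekindDomain MP7ed9c3 MeasureTheory

theorem result :
    ∀ (K : Type) [Field K] [NumberField K] (E : WeierstrassCurve K), E.IsElliptic →
    ∀ M : HeightOneSpectrum (𝓞 K) → WeierstrassCurve (𝓞 K), (∀ v, IsMinAt E v (M v)) →
    (∀ T : ℝ, ∃ C : ℝ, ∀ x : ℝ, 0 < x → x ≤ 1 →
      ∫ t in (-T)..T, Real.log ‖∏' v : HeightOneSpectrum (𝓞 K),
        (locDen (M v) v (3 / 2 + x + t * Complex.I))⁻¹‖ ^ 2 ≤ C) ∧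
    (∀ (G : ℂ → ℂ) (a b δ : ℝ), a < b → 0 < δ →
      DifferentiableOn ℂ G {s | |s.re - 3 / 2| < δ ∧ a < s.im ∧ s.im < b} →
      0 < volume {t : ℝ | a < t ∧ t < b ∧ ConvTo M t (G (3 / 2 + t * Complex.I))} →
      ∀ s : ℂ, 3 / 2 < s.re → s.re < 3 / 2 + δ → a < s.im → s.im < b →
        ∏' v : HeightOneSpectrum (𝓞 K), (locDen (M v) v s)⁻¹ = G s) ∧
    ((∃ L : ℂ → ℂ, Differentiable ℂ L ∧ ∀ s : ℂ, 3 / 2 < s.re →
        L s = ∏' v : HeightOneSpectrum (𝓞 K), (locDen (M v) v s)⁻¹) ↔
      ∃ G : ℂ → ℂ, Differentiable ℂ G ∧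
        0 < volume {t : ℝ | ConvTo M t (G (3 / 2 + t * Complex.I))}) :=
  criteriaAll

end Pool.Agent.Results.MP_7ed9c3_nt.ContinuationCriterion
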