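import Pool.Agent.Lib.MP_7ed9c3_nt.Ext.All

/-!
# Elliptic curves over the extensions of a number field, on the boundary line

Let `K` be a number field, `N` a finite Galois extension of `K` with group `G`, `F_j` finite
extensions of `K` embeddable into `N`, and `E` an elliptic curve over `K`.  For real `c_j`, `t_j`
the upper limit of `|∑ c_j log |L(E/F_j, 3/2 + x + i t_j)|| / log(1/x)` as `x → 0+` is at most twice
the mean of `|∑ c_j Fix_j(g) cos(t_j y)|` over `(g, y) ∈ G × ℝ`, where `Fix_j(g)` is the number of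
`K`-embeddings of `F_j` into `N` fixed by `g`.

Consequence: let `F/K` be finite and `δ` the proportion of the `g ∈ G` which fix no `K`-embedding of
`F` into `N`.  If `δ < 1/4`, or `t ≠ 0` and `δ < π/8`, then a meromorphic continuation of the quotient
`L(E/F,s)/L(E/K,s)` to a neighbourhood of `3/2 + i t` has no zero or pole at this point.  If
`[F:K] ≥ 3` and `G` induces all permutations of the embeddings of `F`, then `δ ≤ 3/8 < π/8`.
-/

/-
Candidate hand-in (lean-grade PASS as a Results file); claim text:

Proves: Let K be a number field, E/K an elliptic curve, N/K finite Galois with group G, F_j (j<m) number fields over K with a K-embedding into N, c_j, t_j real. If mean(T) <= B for all large T, then for every e>0 and all small x>0: |sum c_j log|L(E/F_j,3/2+x+it_j)|| <= (2B+e) log(1/x). Also, for F/K embeddable in N with d = deranged: if d < 1/4, or t ≠ 0 and d < π/8, then a meromorphic continuation of L(E/F,s)/L(E/K,s) to a neighbourhood of 3/2+it has no zero or pole at 3/2+it; d <= 3/8 if [F:K] >= 3 and G induces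 all permutations of the K-embeddings of F into N.
Definitions: fixed g: number of K-embeddings F -> N fixed by g; deranged: share of the g in G fixing none; mean(T): average over (g,y) in G x [0,T] of |sum c_j fixed_j(g) cos(t_j y)|; nm, affCount, red, tr W v = nm v - affCount, eden, locDen W v s = 1/L_v(E,s), IsMinAt: minimal model at v; lfun: product of 1/locDen (M v) v s = L(E,s); ContinuesAt: Ψ is meromorphic at 3/2+it and equals L(E/F,s)/L(E/K,s) for Re s > 3/2 near it; Over K: number field over K.
Relation: Partial answer to Q1 for all K: edge behaviour of L(E/F) against L(E/K); e.g. no zero or pole of their quotient at 3/2+it, t ≠ 0, for all S_n-extensions, n >= 3. No continuation is shown to exist. Proof: Hasse's bound, zeta_F on Re s = 1, densities of Frobenius divisions. Known to me: automorphic L(E,s) have no zeros there (Jacquet-Shalika).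
-/

set_option autoImplicit false

namespace Pool.Agent.Results.MP_7ed9c3_nt.ExtensionInequality

open NumberField IsDedekindDomain MP7ed9c3 Topology Filter

/-- The Euler product `L(E,s)`, computed with models `M v` of `E` that are minimal at `v`. -/
noncomputable def lfun {K : Type} [Field K] [NumberField K]
    (M : HeightOneSpectrum (𝓞 K) → WeierstrassCurve (𝓞 K)) (s : ℂ) : ℂ :=
  ∏' v : HeightOneSpectrum (𝓞 K), (locDen (M v) v s)⁻¹

/-- A number field with an embedding of `K`. -/
structure Over (K : Type) [Field K] where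
  /-- the field -/
  F : Type
  [field : Field F]
  [nf : NumberField F]
  [alg : Algebra K F]

attribute [instance] Over.field Over.nf Over.alg

/-- The number of the `K`-embeddings of `F` into `N` fixed by `g`. -/
noncomputable def fixed (K F N : Type) [Field K] [Field F] [Field N] [Algebra K F] [Algebra K N]
    (g : N ≃ₐ[K] N) : ℕ :=
  Nat.card {φ : F →ₐ[K] N // (g : N →ₐ[K] N).comp φ = φ}

/-- The proportion of the elements of the Galois group which fix no `K`-embedding of `F`. -/
noncomputable def deranged (K F N : Type) [Field K] [Field F] [Field N] [Algebra K F]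
    [Algebra K N] : ℝ :=
  (Nat.card {g : N ≃ₐ[K] N // ∀ φ : F →ₐ[K] N, (g : N →ₐ[K] N).comp φ ≠ φ} : ℝ) /
    (Nat.card (N ≃ₐ[K] N) : ℝ)

/-- The mean of `|∑ c_j Fix_j(g) cos(t_j y)|` over `(g, y) ∈ G × [0,T]`. -/
noncomputable def mean (K N : Type) [Field K] [NumberField K] [Field N] [NumberField N]
    [Algebra K N] {m : ℕ} (F : Fin m → Over K) (c t : Fin m → ℝ) (T : ℝ) : ℝ :=
  (1 / T) * ∫ y in (0 : ℝ)..T, (1 / (Fintype.card (N ≃ₐ[K] N) : ℝ)) *
    ∑ g : N ≃ₐ[K] N, |∑ j, c j * (fixed K (F j).F N g * Real.cos (t j * y))|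

/-- `Ψ` continues `L(E/F,s)/L(E/K,s)` meromorphically to a neighbourhood of `3/2 + i t`. -/
def ContinuesAt {K F : Type} [Field K] [NumberField K] [Field F] [NumberField F]
    (M : HeightOneSpectrum (𝓞 K) → WeierstrassCurve (𝓞 K))
    (M' : HeightOneSpectrum (𝓞 F) → WeierstrassCurve (𝓞 F)) (t : ℝ) (Ψ : ℂ → ℂ) : Prop :=
  MeromorphicAt Ψ (3 / 2 + t * Complex.I) ∧
    ∀ᶠ s in 𝓝 (3 / 2 + t * Complex.I : ℂ), 3 / 2 < s.re → Ψ s = lfun M' s / lfun M s

theorem result :
    ∀ (K N : Type) [Field K] [NumberField K] [Field N] [NumberField N] [Algebra K N]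
      [IsGalois K N] (E : WeierstrassCurve K) [E.IsElliptic],
    -- the inequality
    (∀ (m : ℕ) (F : Fin m → Over K), (∀ j, Nonempty ((F j).F →ₐ[K] N)) →
      ∀ M : ∀ j, HeightOneSpectrum (𝓞 (F j).F) → WeierstrassCurve (𝓞 (F j).F),
        (∀ j w, IsMinAt (E.map (algebraMap K (F j).F)) w (M j w)) →
      ∀ (c t : Fin m → ℝ) (B : ℝ), (∀ᶠ T : ℝ in atTop, mean K N F c t T ≤ B) →
      ∀ ε : ℝ, 0 < ε → ∀ᶠ x : ℝ in 𝓝[>] 0,
        |∑ j, c j * Real.log ‖lfun (M j) (3 / 2 + x + t j * Complex.I)‖| ≤
          (2 * B + ε) * Real.log (1 / x)) ∧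
    -- one extension
    ∀ (F : Type) [Field F] [NumberField F] [Algebra K F], Nonempty (F →ₐ[K] N) →
      (∀ (M : HeightOneSpectrum (𝓞 K) → WeierstrassCurve (𝓞 K))
        (M' : HeightOneSpectrum (𝓞 F) → WeierstrassCurve (𝓞 F)), (∀ v, IsMinAt E v (M v)) →
        (∀ w, IsMinAt (E.map (algebraMap K F)) w (M' w)) →
        ∀ t : ℝ, deranged K F N < 1 / 4 ∨ (t ≠ 0 ∧ deranged K F N < Real.pi / 8) →
        ∀ Ψ : ℂ → ℂ, ContinuesAt M M' t Ψ →
          meromorphicOrderAt Ψ (3 / 2 + t * Complex.I) = 0) ∧
      (3 ≤ Module.finrank K F →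
        (∀ π : Equiv.Perm (F →ₐ[K] N), ∃ g : N ≃ₐ[K] N, ∀ φ, (g : N →ₐ[K] N).comp φ = π φ) →
        deranged K F N ≤ 3 / 8) := by
  intro K N _ _ _ _ _ _ E hE
  refine ⟨?_, ?_⟩
  · intro m F hF M hM c t B hB ε hε
    exact Ext.masterAll K N E hE m (fun j => ⟨(F j).F⟩) hF M hM c t B hB ε hε
  · intro F _ _ _ hF
    refine ⟨?_, ?_⟩
    · intro M M' hM hM' t ht Ψ hΨ
      have hE' : (E.map (algebraMap K F)).IsElliptic := inferInstance
      set κ : ℝ := if t = 0 then 4 * deranged K F N else 8 * deranged K F N / Real.pi with hκ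
      have hd0 : 0 ≤ deranged K F N := by unfold deranged; positivity
      have hpi := Real.pi_pos
      have hκ1 : κ < 1 := by
        rw [hκ]
        split_ifs with h0
        · rcases ht with h | ⟨h, _⟩
          · linarith
          · exact absurd h0 h
        · rw [div_lt_one hpi]
          rcases ht with h | ⟨_, h⟩
          · have := Real.pi_gt_three
            linarith
          · linarith
      have h2 := Ext.twoAll K F N hF E hE M M' hM hM' t ((1 - κ) / 2) (by linarith)
      have hone : meromorphicOrderAt (fun _ : ℂ => (1 : ℂ)) (3 / 2 + t * Complex.I) = 0 := by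
        rw [meromorphicOrderAt_const]
        simp
      rw [← hone]
      refine Ext.ord (3 / 2 + t * Complex.I) Ψ (fun _ => 1) (κ + (1 - κ) / 2) hΨ.1
        (MeromorphicAt.const 1 _) (by linarith) ?_
      have hpath : Tendsto (fun x : ℝ => (3 / 2 + t * Complex.I : ℂ) + x) (𝓝[>] 0)
          (𝓝 (3 / 2 + t * Complex.I)) := by
        have hc : Continuous fun x : ℝ => (3 / 2 + t * Complex.I : ℂ) + x := by fun_prop
        have := (hc.tendsto 0).mono_left (nhdsWithin_le_nhds (s := Set.Ioi (0 : ℝ)))
        simpa using this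
      filter_upwards [h2, hpath.eventually hΨ.2, self_mem_nhdsWithin] with x b1 b2 b4
      have hx : 0 < x := b4
      have hre : 3 / 2 < ((3 / 2 + t * Complex.I : ℂ) + x).re := by
        simp [hx]
      have e : (3 / 2 + t * Complex.I : ℂ) + x = 3 / 2 + x + t * Complex.I := by ring
      have c1 := b2 hre
      have n1 : lfun M ((3 / 2 + t * Complex.I : ℂ) + x) ≠ 0 := Ext.nonZ K E hE M hM _ hre
      have n2 : lfun M' ((3 / 2 + t * Complex.I : ℂ) + x) ≠ 0 :=
        Ext.nonZ F (E.map (algebraMap K F)) hE' M' hM' _ hre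
      refine ⟨by rw [c1]; exact div_ne_zero n2 n1, one_ne_zero, ?_⟩
      rw [c1, norm_div, Real.log_div (norm_ne_zero_iff.mpr n2) (norm_ne_zero_iff.mpr n1), norm_one,
        Real.log_one, sub_zero, e]
      exact b1
    · intro hn hperm
      exact Ext.sym K F N hF hn hperm

end Pool.Agent.Results.MP_7ed9c3_nt.ExtensionInequality
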