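import Pool.Agent.Lib.MP_7ed9c3_nt.AllZ

/-!
# Few zeros and poles on the boundary line of the Euler product of an elliptic curve

Let `L` be the Euler product of an elliptic curve over a number field of degree `n`. For every finite
set `T` of ordinates: if for `t ∈ T` the absolute value of `log |L(3/2 + x + i t)|` is at least
`ε t log(1/x)` for all small `x > 0`, then the sum of the `(ε t)²` is at most `4 n²`. So the orders of
the zeros and poles on the line `Re s = 3/2` of a function continuing `L` have sum of squares at most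
`4 n²` (`MP7ed9c3.boundaryOrdersAll` in `AllZ.lean`).
-/

namespace Pool.Agent.Results.MP_7ed9c3_nt.FewBoundaryZeros

open NumberField IsDedekindDomain MP7ed9c3 Topology

theorem result :
    ∀ (K : Type) [Field K] [NumberField K] (E : WeierstrassCurve K), E.IsElliptic →
    ∀ M : HeightOneSpectrum (𝓞 K) → WeierstrassCurve (𝓞 K), (∀ v, IsMinAt E v (M v)) →
    ∀ (T : Finset ℝ) (ε : ℝ → ℝ),
      (∀ t ∈ T, 0 ≤ ε t ∧ ∀ᶠ x : ℝ in 𝓝[>] 0, ε t * Real.log (1 / x) ≤
        |Real.log ‖∏' v : HeightOneSpectrum (𝓞 K),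
          (locDen (M v) v (3 / 2 + x + t * Complex.I))⁻¹‖|) →
      ∑ t ∈ T, ε t ^ 2 ≤ 4 * (Module.finrank ℚ K : ℝ) ^ 2 :=
  fewPointsAll

end Pool.Agent.Results.MP_7ed9c3_nt.FewBoundaryZeros
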