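import Pool.Agent.Lib.MP_7ed9c3_nt.AllV

/-!
# Growth of an entire continuation of the L-series of an elliptic curve over a number field

If an entire function `F` agrees with the Euler product of an elliptic curve over a number field for
`Re s > 3/2`, then for no `c < 2` and no `R` the bound
`|F s| ≤ exp(c |s| log(1 + |s|) + R (1 + |s|))` holds in the whole plane. No functional equation is
assumed; over the rational numbers the constant `2` is the best possible one.
-/

namespace Pool.Agent.Lib.MP_7ed9c3_nt.Old.GrowthOfContinuation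

open NumberField IsDedekindDomain MP7ed9c3

theorem result :
    ∀ (K : Type) [Field K] [NumberField K] (E : WeierstrassCurve K), E.IsElliptic →
    ∀ M : HeightOneSpectrum (𝓞 K) → WeierstrassCurve (𝓞 K), (∀ v, IsMinAt E v (M v)) →
    ∀ F : ℂ → ℂ, Differentiable ℂ F →
      (∀ s : ℂ, 3 / 2 < s.re → F s = ∏' v : HeightOneSpectrum (𝓞 K), (locDen (M v) v s)⁻¹) →
      ∀ c R : ℝ, c < 2 →
        ∃ s : ℂ, Real.exp (c * (‖s‖ * Real.log (1 + ‖s‖)) + R * (1 + ‖s‖)) < ‖F s‖ :=
  growth2All

end Pool.Agent.Lib.MP_7ed9c3_nt.Old.GrowthOfContinuation
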