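import Pool.Agent.Lib.MP_7ed9c3_nt.Md.All

/-!
# The absolute value of the Euler product on the boundary line decides the continuation

For an elliptic curve `E` over a number field `K` the absolute values of the partial Euler products of
`L(E, s)` at `3/2 + i t` converge for almost all `t`.  If the square of the limit agrees, for almost all
`t` in an open set `J`, with a function `H` analytic on an open set `Ω ⊇ J`, then `L(E, s)` extends
analytically across the segments `3/2 + i J` to all `s` to the left of the line with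
`-i (s - 3/2) ∈ Ω`.  In particular `L(E, s)` has an entire continuation if and only if the square of
the limit is, for almost all `t`, the value of an entire function at `t`.
-/

namespace Pool.Agent.Lib.MP_7ed9c3_nt.Old.ModulusCriterion

open NumberField IsDedekindDomain MP7ed9c3 MP7ed9c3.Md MeasureTheory

theorem result :
    ∀ (K : Type) [Field K] [NumberField K] (E : WeierstrassCurve K), E.IsElliptic →
    ∀ M : HeightOneSpectrum (𝓞 K) → WeierstrassCurve (𝓞 K), (∀ v, IsMinAt E v (M v)) →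
    (∀ (J : Set ℝ) (Ω : Set ℂ) (H : ℂ → ℂ), IsOpen J → IsOpen Ω → (∀ t ∈ J, (t : ℂ) ∈ Ω) →
      DifferentiableOn ℂ H Ω → (∀ᵐ t : ℝ, t ∈ J → ModTo M t (H t)) →
      ∃ F : ℂ → ℂ,
        DifferentiableOn ℂ F {s | 3 / 2 < s.re ∨ (s.re = 3 / 2 ∧ s.im ∈ J) ∨
          (s.re < 3 / 2 ∧ -Complex.I * (s - 3 / 2) ∈ Ω)} ∧
        (∀ s : ℂ, 3 / 2 < s.re →
          F s = ∏' v : HeightOneSpectrum (𝓞 K), (locDen (M v) v s)⁻¹) ∧
        ∀ s : ℂ, s.re < 3 / 2 → -Complex.I * (s - 3 / 2) ∈ Ω →
          F s * (starRingEnd ℂ) (∏' v : HeightOneSpectrum (𝓞 K),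
            (locDen (M v) v (3 - (starRingEnd ℂ) s))⁻¹) = H (-Complex.I * (s - 3 / 2))) ∧
    ((∃ F : ℂ → ℂ, Differentiable ℂ F ∧ ∀ s : ℂ, 3 / 2 < s.re →
        F s = ∏' v : HeightOneSpectrum (𝓞 K), (locDen (M v) v s)⁻¹) ↔
      ∃ H : ℂ → ℂ, Differentiable ℂ H ∧ ∀ᵐ t : ℝ, ModTo M t (H t)) :=
  modulusAll

end Pool.Agent.Lib.MP_7ed9c3_nt.Old.ModulusCriterion
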