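import Pool.Agent.Lib.MP_7ed9c3_nt.Zr.All

/-!
# The number of zeros of a continuation of the L-series of an elliptic curve

If an entire function `F` of finite order agrees with the Euler product of an elliptic curve over a
number field for `Re s > 3/2`, then for every `κ < 2/π` there are arbitrarily large `r` such that `F`
has more than `κ r log r` zeros in `|s| ≤ r`, counted with multiplicity. No functional equation is
assumed; over the rational numbers the constant `2/π` is the best possible one.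
-/

namespace Pool.Agent.Lib.MP_7ed9c3_nt.Old.NumberOfZeros

open NumberField IsDedekindDomain MP7ed9c3

theorem result :
    ∀ (K : Type) [Field K] [NumberField K] (E : WeierstrassCurve K), E.IsElliptic →
    ∀ M : HeightOneSpectrum (𝓞 K) → WeierstrassCurve (𝓞 K), (∀ v, IsMinAt E v (M v)) →
    ∀ F : ℂ → ℂ, Differentiable ℂ F →
      (∀ s : ℂ, 3 / 2 < s.re → F s = ∏' v : HeightOneSpectrum (𝓞 K), (locDen (M v) v s)⁻¹) →
      (∃ C a : ℝ, ∀ s : ℂ, ‖F s‖ ≤ Real.exp (C * (1 + ‖s‖) ^ a)) →
      ∀ κ r₀ : ℝ, κ < 2 / Real.pi → ∃ r : ℝ, r₀ ≤ r ∧ κ * (r * Real.log r) <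
        ((∑ᶠ ρ ∈ Metric.closedBall (0 : ℂ) r, analyticOrderNatAt F ρ : ℕ) : ℝ) :=
  Zr.z1All

end Pool.Agent.Lib.MP_7ed9c3_nt.Old.NumberOfZeros
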