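import Pool.Agent.Lib.MP_7ed9c3_nt.Tw.C2

/-!
# At most one elliptic curve with given j-invariant is exceptional on the boundary line

Let `K` be a number field and `j ≠ 0, 1728`.  Consider all elliptic curves `E` over `K` with j-invariant
`j` and all real `t`.  Call `(E, t)` exceptional if the L-series of `E` has an entire continuation
that vanishes at `3/2 + i t`, or if `t ≠ 0` and `|log |L(E, 3/2 + x + i t)|| ≥ (99/100) log(1/x)` for all
small `x > 0` (no continuation is assumed; any zero or pole at `3/2 + i t` of a continuation to a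
neighbourhood of this point has this property).  Then all exceptional pairs have the same `E` up
to isomorphism and the same `|t|`, and the zeros of entire continuations are simple.
-/

set_option autoImplicit false

namespace Pool.Agent.Lib.MP_7ed9c3_nt.Old.OneVanishingTwist

open NumberField IsDedekindDomain MP7ed9c3 Topology

/-- The Euler product `L(E,s)`, computed with models `M v` of `E` that are minimal at `v`. -/
noncomputable def lfun {K : Type} [Field K] [NumberField K]
    (M : HeightOneSpectrum (𝓞 K) → WeierstrassCurve (𝓞 K)) (s : ℂ) : ℂ :=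
  ∏' v : HeightOneSpectrum (𝓞 K), (locDen (M v) v s)⁻¹

/-- `F` is entire and equal to the Euler product for `Re s > 3/2`. -/
def IsCont {K : Type} [Field K] [NumberField K]
    (M : HeightOneSpectrum (𝓞 K) → WeierstrassCurve (𝓞 K)) (F : ℂ → ℂ) : Prop :=
  Differentiable ℂ F ∧ ∀ s : ℂ, 3 / 2 < s.re → F s = lfun M s

/-- `(E, t)` is exceptional. -/
def Exceptional {K : Type} [Field K] [NumberField K]
    (M : HeightOneSpectrum (𝓞 K) → WeierstrassCurve (𝓞 K)) (t : ℝ) : Prop :=
  (∃ F : ℂ → ℂ, IsCont M F ∧ F (3 / 2 + t * Complex.I) = 0) ∨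
  (t ≠ 0 ∧ ∀ᶠ x : ℝ in 𝓝[>] 0,
    99 / 100 * Real.log (1 / x) ≤ |Real.log ‖lfun M (3 / 2 + x + t * Complex.I)‖|)

theorem result :
    ∀ (K : Type) [Field K] [NumberField K] (E E' : WeierstrassCurve K) [E.IsElliptic]
      [E'.IsElliptic], E.j = E'.j → E.j ≠ 0 → E.j ≠ 1728 →
    ∀ M M' : HeightOneSpectrum (𝓞 K) → WeierstrassCurve (𝓞 K),
      (∀ v, IsMinAt E v (M v)) → (∀ v, IsMinAt E' v (M' v)) →
    ∀ t t' : ℝ, Exceptional M t → Exceptional M' t' →
      (∃ C : WeierstrassCurve.VariableChange K, C • E = E') ∧ |t| = |t'| ∧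
      ∀ F : ℂ → ℂ, IsCont M F → F (3 / 2 + t * Complex.I) = 0 →
        deriv F (3 / 2 + t * Complex.I) ≠ 0 := by
  intro K _ _ E E' _ _ hj h0 h1728 M M' hM hM' t t' ht ht'
  have key : ∀ (N : HeightOneSpectrum (𝓞 K) → WeierstrassCurve (𝓞 K)) (u : ℝ),
      Exceptional N u → Tw.Exceptional N u := by
    intro N u hu
    rcases hu with ⟨F, ⟨hF1, hF2⟩, hF3⟩ | h
    · exact Or.inl ⟨F, hF1, hF2, hF3⟩
    · exact Or.inr h
  obtain ⟨hC, htt⟩ := Tw.atMostOneAll K E E' hj h0 h1728 M M' hM hM' t t' (key _ _ ht) (key _ _ ht')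
  refine ⟨hC, htt, ?_⟩
  intro F hF hF0
  exact (Tw.oneCurveAll K E inferInstance M F ⟨hM, hF.1, hF.2⟩ t t hF0 hF0).2

end Pool.Agent.Lib.MP_7ed9c3_nt.Old.OneVanishingTwist
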