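import Pool.Agent.Lib.MP_7ed9c3_nt.Zg.All

/-!
# Zeros of a continuation of the L-series of an elliptic curve in the strip

Let `K` be a number field of degree `n`, `E` an elliptic curve over `K`, and let `σ₁` satisfy one of the
conditions (a), (b), (c) below.  There are `κ` and `V₀` such that for all `V ≥ V₀` and all real `t₀`: every
function which is holomorphic and at most `exp V` in absolute value in the box `Re s > σ₁`,
`|Im s - t₀| < V ^ κ` and agrees there with the Euler product for `Re s > 3/2` has a zero in the box.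

(a) `σ₁ < 1/2 + 1/(4n)`;

(b) `σ₁ < 3/4`, if there are a Galois extension `N` of `ℚ` and an automorphism `g` of `N` such that exactly
one embedding `φ : K → N` satisfies `g²φ = φ` (for example if the Galois closure of `K` has degree `n!`,
`n ≠ 2, 3`: let `g` be a cycle of length `n - 1`; or if `K = ℚ`);

(c) `σ₁ < 1/2 + 1/(2k)`, if `k` is admissible for an automorphism `g` of a Galois extension `N` of `ℚ` which
contains `K`, that is: there is no function `ψ` on the set of the embeddings `φ : K → N` with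
`ψ(gφ) = ψ(φ)` and `∑ cos(j ψ(φ)) = 0` (sum over the `φ` with `g^j φ = φ`) for all `j = 1, …, k`.

No functional equation and no growth except the bound in the box is assumed.
-/

namespace Pool.Agent.Results.MP_7ed9c3_nt.ZerosInBoxes

open NumberField IsDedekindDomain MP7ed9c3

theorem result :
    ∀ (K : Type) [Field K] [NumberField K] (E : WeierstrassCurve K), E.IsElliptic →
    ∀ M : HeightOneSpectrum (𝓞 K) → WeierstrassCurve (𝓞 K), (∀ v, IsMinAt E v (M v)) →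
    ∀ σ₁ : ℝ,
      (σ₁ < 1 / 2 + 1 / (4 * (Module.finrank ℚ K : ℝ)) ∨
        (σ₁ < 3 / 4 ∧ ∃ (N : Type) (_ : Field N) (_ : NumberField N) (_ : IsGalois ℚ N)
          (g : N ≃ₐ[ℚ] N), ∃! φ : K →ₐ[ℚ] N, ((g ^ 2 : N ≃ₐ[ℚ] N) : N →ₐ[ℚ] N).comp φ = φ) ∨
        ∃ (N : Type) (_ : Field N) (_ : NumberField N) (_ : IsGalois ℚ N) (g : N ≃ₐ[ℚ] N) (k : ℕ),
          Nonempty (K →ₐ[ℚ] N) ∧ Zg.Adm (Zg.perm (K := K) g) k ∧ σ₁ < 1 / 2 + 1 / (2 * (k : ℝ))) →
      ∃ κ V₀ : ℝ, ∀ V t₀ : ℝ, V₀ ≤ V →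
        ∀ F : ℂ → ℂ, DifferentiableOn ℂ F {s : ℂ | σ₁ < s.re ∧ |s.im - t₀| < V ^ κ} →
          (∀ s : ℂ, σ₁ < s.re → |s.im - t₀| < V ^ κ → ‖F s‖ ≤ Real.exp V) →
          (∀ s : ℂ, 3 / 2 < s.re → |s.im - t₀| < V ^ κ →
            F s = ∏' v : HeightOneSpectrum (𝓞 K), (locDen (M v) v s)⁻¹) →
          ∃ ρ : ℂ, σ₁ < ρ.re ∧ |ρ.im - t₀| < V ^ κ ∧ F ρ = 0 := by
  intro K _ _ E hE M hM σ₁ h
  rcases h with h | ⟨h, N, _, _, _, g, hg⟩ | ⟨N, _, _, _, g, k, hne, hadm, h⟩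
  · exact Zs.boxAll K E hE M hM σ₁ h
  · refine Zg.finAll K E hE M hM N g 2 ⟨hg.choose⟩ (Zg.admTwo _ _ ?_) σ₁ (by norm_num; linarith)
    have e : ∀ φ : K →ₐ[ℚ] N, (Zg.perm (K := K) g ^ 2) φ = φ ↔
        ((g ^ 2 : N ≃ₐ[ℚ] N) : N →ₐ[ℚ] N).comp φ = φ := by
      intro φ
      have h1 : (Zg.perm (K := K) g ^ 2) φ = ((g ^ 2 : N ≃ₐ[ℚ] N) : N →ₐ[ℚ] N).comp φ := by
        ext x
        rfl
      rw [h1]
    simpa only [e] using hg
  · exact Zg.finAll K E hE M hM N g k hne hadm σ₁ h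

end Pool.Agent.Results.MP_7ed9c3_nt.ZerosInBoxes
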